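import Pool.Agent.P.MP_5be460_lc.GFin
import Pool.Agent.P.MP_5be460_lc.Decide
import Pool.Agent.P.MP_5be460_lc.Code

namespace Pool.Agent.Results.MP_5be460_lc.AllFields

open Pool.Agent.P.MP_5be460_lc

/-- Over every field, the universal theory of a free Lie algebra is decidable exactly when the
rank is one and the universal theory of the field is decidable; the latter holds for finite fields
and for algebraically closed fields of characteristic zero. -/
theorem result (F : Type) [Field F] (X : Type) [Nonempty X] :
    (LieUnivDecidable F (FreeLieAlgebra F X) ↔ Subsingleton X ∧ FieldUnivDecidable F) ∧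
      (Finite F ∨ (CharZero F ∧ IsAlgClosed F) → FieldUnivDecidable F) :=
  ⟨G.classification F X, fun h => h.elim (fun _ => G.finite_decidable)
    fun ⟨_, _⟩ => field_decidable F⟩

/-- The negated form of Q2, for a field of characteristic zero and for a finite field: the universal
theory of the field is decidable and that of the free Lie algebra of rank two is not. -/
theorem examples :
    (∃ (F : Type) (_ : Field F), CharZero F ∧
      FieldUnivDecidable F ∧ ¬ LieUnivDecidable F (FreeLieAlgebra F Bool)) ∧
    ∃ (F : Type) (_ : Field F), Finite F ∧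
      FieldUnivDecidable F ∧ ¬ LieUnivDecidable F (FreeLieAlgebra F Bool) :=
  ⟨⟨ℂ, inferInstance, inferInstance, (result ℂ Bool).2 (.inr ⟨inferInstance, inferInstance⟩),
      fun h => not_subsingleton Bool ((result ℂ Bool).1.1 h).1⟩,
    ZMod 2, inferInstance, inferInstance, (result (ZMod 2) Bool).2 (.inl inferInstance),
      fun h => not_subsingleton Bool ((result (ZMod 2) Bool).1.1 h).1⟩

/-- Q2 as posed is false. -/
theorem posed : ¬ ∀ (F : Type) [Field F] (X : Type) [Nonempty X],
    LieUnivDecidable F (FreeLieAlgebra F X) ↔ FieldUnivDecidable F := fun h =>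
  let ⟨F, _, _, h1, h2⟩ := examples.1
  h2 ((h F Bool).2 h1)

/-- Different formulas have different strings. -/
theorem codes_injective : (∀ φ ψ : RForm, φ.string = ψ.string → φ = ψ) ∧
    ∀ φ ψ : LForm, φ.string = ψ.string → φ = ψ :=
  ⟨fun φ ψ h => (Code.rform φ ψ [] [] (by rw [h])).1, fun φ ψ h => (Code.lform φ ψ [] [] (by rw [h])).1⟩

end Pool.Agent.Results.MP_5be460_lc.AllFields
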