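import Pool.Agent.P.MP_5be460_lc.EMain

namespace Pool.Agent.Results.MP_5be460_lc.OneEquation

open Pool.Agent.P.MP_5be460_lc.E

/-- In a free Lie algebra of rank at least two over any field, a computable test that accepts every
equation solvable for all values of `x₀, x₁` also accepts an equation that is solvable only for
commuting values of `x₀, x₁`. -/
theorem result (F : Type) [Field F] (X : Type) [Nontrivial X] (f : List ℕ → Bool)
    (hf : Computable f)
    (h : ∀ s t : Tm, (∀ a b : FreeLieAlgebra F X, Solvable s t a b) →
      f (s.code ++ t.code) = true) :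
    ∃ s t : Tm, f (s.code ++ t.code) = true ∧
      ∀ a b : FreeLieAlgebra F X, Solvable s t a b → ⁅a, b⁆ = 0 :=
  Pool.Agent.P.MP_5be460_lc.G.E.inseparable F X f hf h

end Pool.Agent.Results.MP_5be460_lc.OneEquation
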